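import Pool.Agent.TH402.DL.Comb

set_option autoImplicit false

namespace Pool.Agent.TH402.DL

open Finset

/-- The exponent. -/
def E (z : (ℕ × ℕ) × (ℕ × ℕ)) : ℕ :=
  2 * (z.1.1 + 1) * (z.1.2 + 1) + (z.1.1 + 1) + (2 * z.1.1 + 1) * z.2.1 + (z.1.2 + 1) * z.2.2

/-- The sign. -/
def sgn (z : (ℕ × ℕ) × (ℕ × ℕ)) : ℤ := (-1) ^ (z.1.1 + 1) * (-1) ^ z.2.2

/-- Change of variables to solutions of `a b + c l = M`. -/
def tr (z : (ℕ × ℕ) × (ℕ × ℕ)) : ℕ × ℕ × ℕ × ℕ :=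
  (2 * (z.1.2 + 1 + z.2.1) + 1, 2 * z.1.1 + 1, 2 * (z.1.2 + 1), z.2.2 + 1)

/-- All quadruples with given exponent. -/
def S (k : ℕ) : Finset ((ℕ × ℕ) × (ℕ × ℕ)) :=
  ((range (k + 1) ×ˢ range (k + 1)) ×ˢ (range (k + 1) ×ˢ range (k + 1))).filter fun z => E z = k

theorem mem_S (k : ℕ) (z : (ℕ × ℕ) × (ℕ × ℕ)) : z ∈ S k ↔ E z = k := by
  simp only [S, mem_filter, mem_product, mem_range]
  constructor
  · exact fun h => h.2
  · intro h
    refine ⟨?_, h⟩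
    obtain ⟨⟨m, n⟩, ⟨u, v⟩⟩ := z
    simp only [E] at h ⊢
    have h1 : u ≤ (2 * m + 1) * u := Nat.le_mul_of_pos_left u (by omega)
    have h2 : v ≤ (n + 1) * v := Nat.le_mul_of_pos_left v (by omega)
    have h3 : n + 1 ≤ (2 * (m + 1)) * (n + 1) := Nat.le_mul_of_pos_left _ (by omega)
    refine ⟨⟨?_, ?_⟩, ?_, ?_⟩ <;> omega

theorem E_eq (m n u v : ℕ) : (2 * (n + 1 + u) + 1) * (2 * m + 1) + 2 * (n + 1) * (v + 1) + 1
    = 2 * E ((m, n), (u, v)) := by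
  simp only [E]
  ring

/-- The signed count over a fibre of even exponent vanishes. -/
theorem sum_S (k : ℕ) (hk : k % 2 = 0) (hk0 : 0 < k) : ∑ z ∈ S k, sgn z = 0 := by
  have h1 : ∑ z ∈ S k, sgn z
      = ∑ x ∈ (A (2 * k - 1)).filter (fun x => x.2.2.1 < x.1),
        -(chi x.2.1 * (-1) ^ (x.2.2.2 - 1)) := by
    refine Finset.sum_nbij' tr
      (fun x => ((x.2.1 / 2, x.2.2.1 / 2 - 1), ((x.1 - x.2.2.1) / 2, x.2.2.2 - 1))) ?_ ?_ ?_ ?_ ?_
    · rintro ⟨⟨m, n⟩, ⟨u, v⟩⟩ h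
      rw [mem_S] at h
      have h2 := E_eq m n u v
      rw [h] at h2
      rw [mem_filter]
      refine ⟨?_, ?_⟩
      · show (2 * (n + 1 + u) + 1, 2 * m + 1, 2 * (n + 1), v + 1) ∈ A (2 * k - 1)
        rw [mem_A]
        refine ⟨by omega, by omega, by omega, by omega, by omega, by omega⟩
      · show 2 * (n + 1) < 2 * (n + 1 + u) + 1
        omega
    · rintro ⟨a, b, c, l⟩ h
      rw [mem_filter, mem_A] at h
      obtain ⟨⟨ha, hb, hc, hc0, hl, hM⟩, h1⟩ := h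
      simp only at h1
      rw [mem_S]
      obtain ⟨m, rfl⟩ : ∃ m, b = 2 * m + 1 := ⟨b / 2, by omega⟩
      obtain ⟨n, rfl⟩ : ∃ n, c = 2 * (n + 1) := ⟨c / 2 - 1, by omega⟩
      obtain ⟨u, rfl⟩ : ∃ u, a = 2 * (n + 1 + u) + 1 := ⟨(a - 2 * (n + 1)) / 2, by omega⟩
      obtain ⟨v, rfl⟩ : ∃ v, l = v + 1 := ⟨l - 1, by omega⟩
      have h2 := E_eq m n u v
      have h3 : (2 * m + 1) / 2 = m := by omega
      have h4 : 2 * (n + 1) / 2 - 1 = n := by omega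
      have h5 : (2 * (n + 1 + u) + 1 - 2 * (n + 1)) / 2 = u := by omega
      have h6 : v + 1 - 1 = v := by omega
      show E (((2 * m + 1) / 2, 2 * (n + 1) / 2 - 1), ((2 * (n + 1 + u) + 1 - 2 * (n + 1)) / 2,
        v + 1 - 1)) = k
      rw [h3, h4, h5, h6]
      omega
    · rintro ⟨⟨m, n⟩, ⟨u, v⟩⟩ _
      simp only [tr, Prod.mk.injEq]
      refine ⟨⟨by omega, by omega⟩, by omega, by omega⟩
    · rintro ⟨a, b, c, l⟩ h
      rw [mem_filter, mem_A] at h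
      obtain ⟨⟨ha, hb, hc, hc0, hl, hM⟩, h1⟩ := h
      simp only at h1
      simp only [tr, Prod.mk.injEq]
      refine ⟨by omega, by omega, by omega, by omega⟩
    · rintro ⟨⟨m, n⟩, ⟨u, v⟩⟩ _
      simp only [tr, sgn, chi]
      have h3 : (2 * m + 1) / 2 = m := by omega
      rw [h3, Nat.add_sub_cancel, pow_succ]
      ring
  rw [h1, Finset.sum_neg_distrib, count_zero _ (by omega), neg_zero]

/-- The general term of the fourfold series. -/
noncomputable def F (x : ℂ) (z : (ℕ × ℕ) × (ℕ × ℕ)) : ℂ := (sgn z : ℂ) * x ^ E z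

theorem summable_F (x : ℂ) (hx : ‖x‖ < 1) : Summable (F x) := by
  have hg := summable_geometric_of_lt_one (norm_nonneg x) hx
  have h2 : Summable fun p : ℕ × ℕ => ‖x‖ ^ p.1 * ‖x‖ ^ p.2 :=
    hg.mul_of_nonneg hg (fun n => pow_nonneg (norm_nonneg x) n) (fun n => pow_nonneg (norm_nonneg x) n)
  have h4 : Summable fun z : (ℕ × ℕ) × (ℕ × ℕ) =>
      (‖x‖ ^ z.1.1 * ‖x‖ ^ z.1.2) * (‖x‖ ^ z.2.1 * ‖x‖ ^ z.2.2) :=
    h2.mul_of_nonneg h2 (fun p => by positivity) (fun p => by positivity)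
  refine Summable.of_norm_bounded h4 ?_
  rintro ⟨⟨m, n⟩, ⟨u, v⟩⟩
  have h5 : ‖((sgn ((m, n), (u, v)) : ℤ) : ℂ)‖ = 1 := by
    simp only [sgn]
    push_cast
    simp
  rw [F, norm_mul, h5, one_mul, norm_pow, ← pow_add, ← pow_add, ← pow_add]
  apply pow_le_pow_of_le_one (norm_nonneg x) hx.le
  simp only [E]
  have h1 : u ≤ (2 * m + 1) * u := Nat.le_mul_of_pos_left u (by omega)
  have h2 : v ≤ (n + 1) * v := Nat.le_mul_of_pos_left v (by omega)
  have h3 : n + 1 ≤ (2 * (m + 1)) * (n + 1) := Nat.le_mul_of_pos_left _ (by omega)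
  omega

/-- The double Lambert series as a fourfold series. -/
theorem Y_eq (x : ℂ) (hx : ‖x‖ < 1) :
    ∑' p : ℕ × ℕ, (-x) ^ (2 * (p.1 + 1) * (p.2 + 1) + (p.1 + 1)) /
      ((1 + x ^ (p.2 + 1)) * (1 - x ^ (2 * p.1 + 1))) = ∑' z, F x z := by
  rw [(summable_F x hx).tsum_prod]
  apply tsum_congr
  rintro ⟨m, n⟩
  have hu : ‖x ^ (2 * m + 1)‖ < 1 := by
    rw [norm_pow]; exact pow_lt_one₀ (norm_nonneg x) hx (by omega)
  have hv : ‖-x ^ (n + 1)‖ < 1 := by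
    rw [norm_neg, norm_pow]; exact pow_lt_one₀ (norm_nonneg x) hx (by omega)
  have h1 := tsum_mul_tsum_of_summable_norm
    (summable_norm_geometric_of_norm_lt_one hu) (summable_norm_geometric_of_norm_lt_one hv)
  rw [tsum_geometric_of_norm_lt_one hu, tsum_geometric_of_norm_lt_one hv] at h1
  have h2 : ∀ w : ℕ × ℕ, F x ((m, n), w) = (-x) ^ (2 * (m + 1) * (n + 1) + (m + 1)) *
      ((x ^ (2 * m + 1)) ^ w.1 * (-x ^ (n + 1)) ^ w.2) := by
    rintro ⟨u, v⟩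
    simp only [F, E, sgn]
    push_cast
    have h3 : (-x) ^ (2 * (m + 1) * (n + 1) + (m + 1))
        = (-1) ^ (m + 1) * x ^ (2 * (m + 1) * (n + 1) + (m + 1)) := by
      rw [neg_pow, pow_add (-1 : ℂ)]
      have : (-1 : ℂ) ^ (2 * (m + 1) * (n + 1)) = 1 := by
        rw [mul_assoc, pow_mul]; simp
      rw [this, one_mul]
    have h4 : (-x ^ (n + 1)) ^ v = (-1) ^ v * x ^ ((n + 1) * v) := by
      rw [neg_pow, ← pow_mul]
    rw [h3, h4, ← pow_mul, pow_add x _ ((n + 1) * v), pow_add x _ ((2 * m + 1) * u)]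
    ring
  rw [tsum_congr h2, tsum_mul_left, ← h1, sub_neg_eq_add, div_eq_mul_inv, mul_inv, mul_comm
    (1 + x ^ (n + 1))⁻¹]

theorem F_neg (x : ℂ) (z : (ℕ × ℕ) × (ℕ × ℕ)) : F (-x) z = (-1) ^ E z * F x z := by
  rw [F, F, neg_pow]; ring

theorem tsum_fibre (x : ℂ) (k : ℕ) :
    ∑' z : E ⁻¹' {k}, (F x z + F (-x) z) = 0 := by
  rw [tsum_subtype (E ⁻¹' {k}) (fun z => F x z + F (-x) z)]
  rw [tsum_eq_sum (s := S k)]
  · have h1 : ∀ z ∈ S k, (E ⁻¹' {k}).indicator (fun z => F x z + F (-x) z) z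
        = (1 + (-1) ^ k) * x ^ k * ((sgn z : ℤ) : ℂ) := by
      intro z hz
      rw [mem_S] at hz
      rw [Set.indicator_of_mem (by simpa using hz), F_neg, F, hz]
      ring
    rw [Finset.sum_congr rfl h1, ← Finset.mul_sum, ← Int.cast_sum]
    rcases Nat.even_or_odd k with hk | hk
    · rcases Nat.eq_zero_or_pos k with h0 | h0
      · subst h0
        have : S 0 = ∅ := by
          ext z
          rw [mem_S]
          simp only [Finset.notMem_empty, iff_false]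
          simp only [E]
          omega
        rw [this]
        simp
      · rw [sum_S k (Nat.even_iff.mp hk) h0]
        simp
    · rw [hk.neg_one_pow]
      ring
  · intro z hz
    rw [mem_S] at hz
    exact Set.indicator_of_notMem (by simpa using hz) _

theorem tsum_add_zero (x : ℂ) (hx : ‖x‖ < 1) : ∑' z, F x z + ∑' z, F (-x) z = 0 := by
  have hx' : ‖-x‖ < 1 := by rwa [norm_neg]
  have hs := (summable_F x hx).add (summable_F (-x) hx')
  rw [← (summable_F x hx).tsum_add (summable_F (-x) hx')]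
  have h := hs.hasSum.tsum_fiberwise E
  have h0 : (fun c : ℕ => ∑' b : E ⁻¹' {c}, (F x b + F (-x) b)) = fun _ => 0 := by
    funext c
    exact tsum_fibre x c
  rw [h0] at h
  exact h.unique hasSum_zero

/-- The double Lambert series is odd. -/
theorem result :
    ∀ q : ℂ, ‖q‖ < 1 →
      (∑' p : ℕ × ℕ, (-(-q)) ^ (2 * (p.1 + 1) * (p.2 + 1) + (p.1 + 1)) /
          ((1 + (-q) ^ (p.2 + 1)) * (1 - (-q) ^ (2 * p.1 + 1))))
        = -(∑' p : ℕ × ℕ, (-q) ^ (2 * (p.1 + 1) * (p.2 + 1) + (p.1 + 1)) /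
          ((1 + q ^ (p.2 + 1)) * (1 - q ^ (2 * p.1 + 1)))) := by
  intro q hq
  have hq' : ‖-q‖ < 1 := by rwa [norm_neg]
  rw [Y_eq (-q) hq', Y_eq q hq]
  have := tsum_add_zero q hq
  exact eq_neg_of_add_eq_zero_right this

end Pool.Agent.TH402.DL
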