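import Mathlib

set_option autoImplicit false

namespace Pool.Agent.TH402.DL

open Finset

/-- Solutions of `a b + c l = M` with `a, b` odd, `c` even, all positive. -/
def A (M : ℕ) : Finset (ℕ × ℕ × ℕ × ℕ) :=
  (range (M + 1) ×ˢ range (M + 1) ×ˢ range (M + 1) ×ˢ range (M + 1)).filter
    fun x => x.1 % 2 = 1 ∧ x.2.1 % 2 = 1 ∧ x.2.2.1 % 2 = 0 ∧ 0 < x.2.2.1 ∧ 0 < x.2.2.2 ∧
      x.1 * x.2.1 + x.2.2.1 * x.2.2.2 = M

theorem mem_A (M a b c l : ℕ) : (a, b, c, l) ∈ A M ↔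
    a % 2 = 1 ∧ b % 2 = 1 ∧ c % 2 = 0 ∧ 0 < c ∧ 0 < l ∧ a * b + c * l = M := by
  simp only [A, mem_filter, mem_product, mem_range]
  constructor
  · rintro ⟨_, h⟩
    exact h
  · intro h
    refine ⟨?_, h⟩
    obtain ⟨ha, hb, hc, hc0, hl, hM⟩ := h
    have ha0 : 0 < a := by omega
    have hb0 : 0 < b := by omega
    have h1 : a ≤ a * b := Nat.le_mul_of_pos_right a hb0
    have h2 : b ≤ a * b := Nat.le_mul_of_pos_left b ha0
    have h3 : c ≤ c * l := Nat.le_mul_of_pos_right c hl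
    have h4 : l ≤ c * l := Nat.le_mul_of_pos_left l hc0
    omega

/-- The character modulo 4 on odd numbers. -/
def chi (b : ℕ) : ℤ := (-1) ^ (b / 2)

theorem claim1 (M : ℕ) :
    ∑ x ∈ (A M).filter (fun x => x.2.2.1 < x.1 ∧ x.2.2.2 % 2 = 1), chi x.2.1
      = ∑ x ∈ (A M).filter (fun x => x.2.1 < x.2.2.2 ∧ x.2.2.2 % 2 = 0), chi x.2.1 := by
  refine Finset.sum_nbij' (fun x => (x.1 - x.2.2.1, x.2.1, x.2.2.1, x.2.1 + x.2.2.2))
    (fun x => (x.1 + x.2.2.1, x.2.1, x.2.2.1, x.2.2.2 - x.2.1)) ?_ ?_ ?_ ?_ ?_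
  · rintro ⟨a, b, c, l⟩ h
    rw [mem_filter, mem_A] at h
    obtain ⟨⟨ha, hb, hc, hc0, hl, hM⟩, h1, h2⟩ := h
    simp only at h1 h2
    rw [mem_filter, mem_A]
    refine ⟨⟨?_, hb, hc, hc0, ?_, ?_⟩, ?_, ?_⟩
    · show (a - c) % 2 = 1
      omega
    · show 0 < b + l
      omega
    · obtain ⟨d, rfl⟩ := Nat.exists_eq_add_of_lt h1
      have h3 : c + d + 1 - c = d + 1 := by omega
      show (c + d + 1 - c) * b + c * (b + l) = M
      rw [h3, ← hM]; ring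
    · show b < b + l
      omega
    · show (b + l) % 2 = 0
      omega
  · rintro ⟨a, b, c, l⟩ h
    rw [mem_filter, mem_A] at h
    obtain ⟨⟨ha, hb, hc, hc0, hl, hM⟩, h1, h2⟩ := h
    simp only at h1 h2
    rw [mem_filter, mem_A]
    refine ⟨⟨?_, hb, hc, hc0, ?_, ?_⟩, ?_, ?_⟩
    · show (a + c) % 2 = 1
      omega
    · show 0 < l - b
      omega
    · obtain ⟨d, rfl⟩ := Nat.exists_eq_add_of_lt h1
      have h3 : b + d + 1 - b = d + 1 := by omega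
      show (a + c) * b + c * (b + d + 1 - b) = M
      rw [h3, ← hM]; ring
    · show c < a + c
      omega
    · show (l - b) % 2 = 1
      omega
  · rintro ⟨a, b, c, l⟩ h
    rw [mem_filter, mem_A] at h
    obtain ⟨⟨ha, hb, hc, hc0, hl, hM⟩, h1, h2⟩ := h
    simp only at h1 h2
    simp only [Prod.mk.injEq]
    refine ⟨by omega, trivial, trivial, by omega⟩
  · rintro ⟨a, b, c, l⟩ h
    rw [mem_filter, mem_A] at h
    obtain ⟨⟨ha, hb, hc, hc0, hl, hM⟩, h1, h2⟩ := h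
    simp only at h1 h2
    simp only [Prod.mk.injEq]
    refine ⟨by omega, trivial, trivial, by omega⟩
  · rintro ⟨a, b, c, l⟩ _
    rfl

theorem claim2 (M : ℕ) :
    ∑ x ∈ (A M).filter (fun x => x.2.1 < x.2.2.2 ∧ x.2.2.2 % 2 = 0), chi x.2.1
      = ∑ x ∈ (A M).filter (fun x => x.1 < x.2.2.1 ∧ x.2.2.2 % 2 = 0), chi x.1 := by
  refine Finset.sum_nbij' (fun x => (x.2.1, x.1, x.2.2.2, x.2.2.1))
    (fun x => (x.2.1, x.1, x.2.2.2, x.2.2.1)) ?_ ?_ ?_ ?_ ?_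
  · rintro ⟨a, b, c, l⟩ h
    rw [mem_filter, mem_A] at h
    obtain ⟨⟨ha, hb, hc, hc0, hl, hM⟩, h1, h2⟩ := h
    rw [mem_filter, mem_A]
    exact ⟨⟨hb, ha, h2, hl, hc0, by rw [← hM]; ring⟩, h1, hc⟩
  · rintro ⟨a, b, c, l⟩ h
    rw [mem_filter, mem_A] at h
    obtain ⟨⟨ha, hb, hc, hc0, hl, hM⟩, h1, h2⟩ := h
    rw [mem_filter, mem_A]
    exact ⟨⟨hb, ha, h2, hl, hc0, by rw [← hM]; ring⟩, h1, hc⟩
  · rintro ⟨a, b, c, l⟩ _
    rfl
  · rintro ⟨a, b, c, l⟩ _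
    rfl
  · rintro ⟨a, b, c, l⟩ _
    rfl

theorem claim3 (M : ℕ) (hM4 : M % 4 = 3) (a b c l : ℕ) (h : (a, b, c, l) ∈ A M)
    (hl2 : l % 2 = 0) : chi a = -chi b := by
  rw [mem_A] at h
  obtain ⟨ha, hb, hc, hc0, hl, hM⟩ := h
  obtain ⟨a', rfl⟩ : ∃ k, a = 2 * k + 1 := ⟨a / 2, by omega⟩
  obtain ⟨b', rfl⟩ : ∃ k, b = 2 * k + 1 := ⟨b / 2, by omega⟩
  obtain ⟨c', rfl⟩ : ∃ k, c = 2 * k := ⟨c / 2, by omega⟩
  obtain ⟨l', rfl⟩ : ∃ k, l = 2 * k := ⟨l / 2, by omega⟩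
  have h1 : (2 * a' + 1) / 2 = a' := by omega
  have h2 : (2 * b' + 1) / 2 = b' := by omega
  rw [chi, chi, h1, h2]
  have h3 : (2 * a' + 1) * (2 * b' + 1) + 2 * c' * (2 * l') = 4 * (a' * b' + c' * l') + 2 * (a' + b') + 1 := by
    ring
  rw [h3] at hM
  have h4 : (a' + b') % 2 = 1 := by omega
  have h5 : (-1 : ℤ) ^ (a' + b') = -1 := by
    rw [← Nat.odd_iff] at h4
    exact h4.neg_one_pow
  rw [pow_add] at h5
  rcases neg_one_pow_eq_or ℤ b' with h6 | h6 <;> rw [h6] at h5 ⊢ <;> linarith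

theorem claim4 (M : ℕ) (hM4 : M % 4 = 3) :
    ∑ x ∈ (A M).filter (fun x => x.2.2.2 % 2 = 0), chi x.2.1 = 0 := by
  have h1 : ∑ x ∈ (A M).filter (fun x => x.2.2.2 % 2 = 0), chi x.2.1
      = ∑ x ∈ (A M).filter (fun x => x.2.2.2 % 2 = 0), chi x.1 := by
    refine Finset.sum_nbij' (fun x => (x.2.1, x.1, x.2.2.1, x.2.2.2))
      (fun x => (x.2.1, x.1, x.2.2.1, x.2.2.2)) ?_ ?_ ?_ ?_ ?_
    · rintro ⟨a, b, c, l⟩ h
      rw [mem_filter, mem_A] at h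
      obtain ⟨⟨ha, hb, hc, hc0, hl, hM⟩, h1⟩ := h
      rw [mem_filter, mem_A]
      exact ⟨⟨hb, ha, hc, hc0, hl, by rw [← hM]; ring⟩, h1⟩
    · rintro ⟨a, b, c, l⟩ h
      rw [mem_filter, mem_A] at h
      obtain ⟨⟨ha, hb, hc, hc0, hl, hM⟩, h1⟩ := h
      rw [mem_filter, mem_A]
      exact ⟨⟨hb, ha, hc, hc0, hl, by rw [← hM]; ring⟩, h1⟩
    · rintro ⟨a, b, c, l⟩ _
      rfl
    · rintro ⟨a, b, c, l⟩ _
      rfl
    · rintro ⟨a, b, c, l⟩ _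
      rfl
  have h2 : ∑ x ∈ (A M).filter (fun x => x.2.2.2 % 2 = 0), chi x.1
      = - ∑ x ∈ (A M).filter (fun x => x.2.2.2 % 2 = 0), chi x.2.1 := by
    rw [← Finset.sum_neg_distrib]
    apply Finset.sum_congr rfl
    rintro ⟨a, b, c, l⟩ h
    rw [mem_filter] at h
    exact claim3 M hM4 a b c l h.1 h.2
  linarith

/-- The signed count vanishes for `M ≡ 3 (mod 4)`. -/
theorem count_zero (M : ℕ) (hM4 : M % 4 = 3) :
    ∑ x ∈ (A M).filter (fun x => x.2.2.1 < x.1), chi x.2.1 * (-1) ^ (x.2.2.2 - 1) = 0 := by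
  rw [← Finset.sum_filter_add_sum_filter_not _ (fun x => x.2.2.2 % 2 = 1)]
  rw [Finset.filter_filter, Finset.filter_filter]
  have h1 : ∑ x ∈ (A M).filter (fun x => x.2.2.1 < x.1 ∧ x.2.2.2 % 2 = 1),
      chi x.2.1 * (-1) ^ (x.2.2.2 - 1)
      = ∑ x ∈ (A M).filter (fun x => x.2.2.1 < x.1 ∧ x.2.2.2 % 2 = 1), chi x.2.1 := by
    apply Finset.sum_congr rfl
    rintro ⟨a, b, c, l⟩ h
    rw [mem_filter] at h
    have h2 : l % 2 = 1 := h.2.2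
    have h3 : Even (l - 1) := by rw [Nat.even_iff]; omega
    show chi b * (-1) ^ (l - 1) = chi b
    rw [h3.neg_one_pow, mul_one]
  have h2 : ∑ x ∈ (A M).filter (fun x => x.2.2.1 < x.1 ∧ ¬ x.2.2.2 % 2 = 1),
      chi x.2.1 * (-1) ^ (x.2.2.2 - 1)
      = - ∑ x ∈ (A M).filter (fun x => x.2.2.1 < x.1 ∧ x.2.2.2 % 2 = 0), chi x.2.1 := by
    rw [← Finset.sum_neg_distrib]
    have hf : (A M).filter (fun x => x.2.2.1 < x.1 ∧ ¬ x.2.2.2 % 2 = 1)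
        = (A M).filter (fun x => x.2.2.1 < x.1 ∧ x.2.2.2 % 2 = 0) := by
      apply Finset.filter_congr
      intro x _
      constructor
      · rintro ⟨h1, h2⟩; exact ⟨h1, by omega⟩
      · rintro ⟨h1, h2⟩; exact ⟨h1, by omega⟩
    rw [hf]
    apply Finset.sum_congr rfl
    rintro ⟨a, b, c, l⟩ h
    rw [mem_filter, mem_A] at h
    have h2 : l % 2 = 0 := h.2.2
    have h4 : 0 < l := h.1.2.2.2.2.1
    have h3 : Odd (l - 1) := by rw [Nat.odd_iff]; omega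
    show chi b * (-1) ^ (l - 1) = -chi b
    rw [h3.neg_one_pow]; ring
  rw [h1, h2, claim1, claim2]
  have h3 : ∑ x ∈ (A M).filter (fun x => x.1 < x.2.2.1 ∧ x.2.2.2 % 2 = 0), chi x.1
      = - ∑ x ∈ (A M).filter (fun x => x.1 < x.2.2.1 ∧ x.2.2.2 % 2 = 0), chi x.2.1 := by
    rw [← Finset.sum_neg_distrib]
    apply Finset.sum_congr rfl
    rintro ⟨a, b, c, l⟩ h
    rw [mem_filter] at h
    exact claim3 M hM4 a b c l h.1 h.2.2
  rw [h3]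
  have h4 := claim4 M hM4
  rw [← Finset.sum_filter_add_sum_filter_not _ (fun x => x.1 < x.2.2.1), Finset.filter_filter,
    Finset.filter_filter] at h4
  have h5 : (A M).filter (fun x => x.2.2.2 % 2 = 0 ∧ x.1 < x.2.2.1)
      = (A M).filter (fun x => x.1 < x.2.2.1 ∧ x.2.2.2 % 2 = 0) := by
    apply Finset.filter_congr
    intro x _
    exact and_comm
  have h6 : (A M).filter (fun x => x.2.2.2 % 2 = 0 ∧ ¬ x.1 < x.2.2.1)
      = (A M).filter (fun x => x.2.2.1 < x.1 ∧ x.2.2.2 % 2 = 0) := by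
    apply Finset.filter_congr
    rintro ⟨a, b, c, l⟩ h
    rw [mem_A] at h
    obtain ⟨ha, hb, hc, _⟩ := h
    show (l % 2 = 0 ∧ ¬ a < c) ↔ (c < a ∧ l % 2 = 0)
    omega
  rw [h5, h6] at h4
  linarith

end Pool.Agent.TH402.DL
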